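import Pool.Agent.R629.NF.Poly2

/-!
# MP_976e2b_nt: weight two eigenclasses modulo Galois representations

Let `θ_i`, `i ∈ I`, be a countable family of non-trivial characters of the Hecke algebras of `GL_2` over
number fields `K_i`, with `a_v = θ_i(T_v)`, `b_v = θ_i(S_v)`, and let `ρ_j`, `j ∈ J`, be a countable
family of Galois representations of number fields `L_j` (for instance all irreducible representations
of geometric origin, or all irreducible members of compatible systems), given by their characteristic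
polynomials of Frobenius, considered as complex polynomials.  The Euler products of the `θ_i` and the
`ρ_j` have boundary values `l_i(t)`, `l_j(t)` on a line `Re s = 1 + w`.  If `θ_i` has a Galois
representation in the family, then `l_i(t)` is algebraic over the field `K(t)` generated by countably
many constants, the `l_j(t)`, `t` and the `p^{-it}`.  The theorem: the `l_i(t)` are algebraically
independent over `K(t)` for almost all `t` if and only if the `θ_i` satisfy no relation modulo the
`ρ_j`; a single `l_i(t)` is algebraic over `K(t)` if and only if all Euler factors of a power of the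
Euler product of `θ_i`, up to finitely many, come from a virtual Galois representation.
-/

set_option autoImplicit false

namespace Pool.Agent.Results.MP_976e2b_nt.EigenclassesModuloGalois

open MeasureTheory NumberField IsDedekindDomain Polynomial
open Pool.Agent.R629.NF
open Pool.Agent.R629.SP
open Pool.Agent.TH339.MP (nm pr dg nm_eq dg_pos)

/-- The Hecke polynomial `X² - a_v X + b_v q_v`. -/
noncomputable def heckePoly {K : Type} [Field K] [NumberField K]
    (a b : HeightOneSpectrum (𝓞 K) → ℂ) (v : HeightOneSpectrum (𝓞 K)) : ℂ[X] :=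
  X ^ 2 - C (a v) * X + C (b v * (nm v : ℂ))

lemma hecke_sys {K : Type} [Field K] [NumberField K] {a b : HeightOneSpectrum (𝓞 K) → ℂ}
    {S : Finset ℕ} {w : ℝ} (hb : ∀ v, (pr v : ℕ) ∉ S → ‖b v‖ = 1)
    (ha : ∀ v, (pr v : ℕ) ∉ S → ∀ z ∈ (heckePoly a b v).roots, ‖z‖ ≤ ((nm v : ℕ) : ℝ) ^ w) :
    IsSysLe S 2 w (heckePoly a b) := by
  intro v hv
  have h1 : heckePoly a b v = C 1 * X ^ 2 + C (-a v) * X + C (b v * (nm v : ℂ)) := by
    unfold heckePoly
    rw [C_1, C_neg]
    ring
  have h2 : (heckePoly a b v).natDegree = 2 := by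
    rw [h1]
    exact natDegree_quadratic one_ne_zero
  have hm : (heckePoly a b v).Monic := by
    rw [Monic, leadingCoeff, h2, h1]
    simp
  refine ⟨hm, h2, fun z hz => ⟨?_, ha v hv z hz⟩⟩
  rintro rfl
  have h3 := (mem_roots hm.ne_zero).1 hz
  unfold heckePoly at h3
  rw [IsRoot, eval_add, eval_sub, eval_pow, eval_mul, eval_C, eval_C, eval_X] at h3
  have h4 : b v * (nm v : ℂ) = 0 := by linear_combination h3
  rcases mul_eq_zero.1 h4 with h5 | h5
  · have := hb v hv
    rw [h5, norm_zero] at this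
    exact zero_ne_one this
  · have h6 : nm v = 0 := by exact_mod_cast h5
    rw [nm_eq] at h6
    exact (pow_pos (pr v).2.pos _).ne' h6

/-- **Eigenclasses modulo Galois representations.** -/
theorem result {I J : Type} [Countable I] [Countable J]
    (K : I → Type) [∀ i, Field (K i)] [∀ i, NumberField (K i)]
    (SI : I → Finset ℕ) (hSI : ∀ i, Unram (K i) (SI i)) {w : ℝ}
    (a b : ∀ i, HeightOneSpectrum (𝓞 (K i)) → ℂ)
    (hb : ∀ i v, (pr v : ℕ) ∉ SI i → ‖b i v‖ = 1)
    (ha : ∀ i v, (pr v : ℕ) ∉ SI i → ∀ z ∈ (heckePoly (a i) (b i) v).roots,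
      ‖z‖ ≤ ((nm v : ℕ) : ℝ) ^ w)
    (L : J → Type) [∀ j, Field (L j)] [∀ j, NumberField (L j)]
    (SJ : J → Finset ℕ) (hSJ : ∀ j, Unram (L j) (SJ j)) (m : J → ℕ)
    (Q : ∀ j, HeightOneSpectrum (𝓞 (L j)) → ℂ[X]) (hQ : ∀ j, IsSysLe (SJ j) (m j) w (Q j)) :
    ((∀ i, ∃ l : ℝ → ℂ, IsEdgeOf (SI i) 2 (heckePoly (a i) (b i)) w l) ∧
      ∀ j, ∃ l : ℝ → ℂ, IsEdgeOf (SJ j) (m j) (Q j) w l) ∧
    ∀ (l : I → ℝ → ℂ) (lQ : J → ℝ → ℂ),
      (∀ i, IsEdgeOf (SI i) 2 (heckePoly (a i) (b i)) w (l i)) →
      (∀ j, IsEdgeOf (SJ j) (m j) (Q j) w (lQ j)) →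
      [NoRelP (fun i => above (heckePoly (a i) (b i))) (fun j => above (Q j)),
        ∀ k : Subfield ℂ, (k : Set ℂ).Countable → ∀ᵐ t : ℝ, AlgebraicIndependent
          (IntermediateField.adjoin k (valSet (fun j => lQ j t) t)) fun i => l i t,
        ∀ k : Subfield ℂ, (k : Set ℂ).Countable → ¬ ∀ᵐ t : ℝ, ¬ AlgebraicIndependent
          (IntermediateField.adjoin k (valSet (fun j => lQ j t) t)) fun i => l i t].TFAE ∧
      ∀ i, (VirtP (above (heckePoly (a i) (b i))) (fun j => above (Q j)) ↔
          DependentOn (l i) lQ) ∧ (DependentOn (l i) lQ ∨ IndependentOf (l i) lQ) := by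
  exact ⟨⟨fun i => exists_edgeOf_le (hSI i) (hecke_sys (hb i) (ha i)),
    fun j => exists_edgeOf_le (hSJ j) (hQ j)⟩, fun l lQ hl hlQ =>
    ⟨matroidK hSI hSJ (fun i => hecke_sys (hb i) (ha i)) hQ hl hlQ,
      fun i => singleK (hSI i) hSJ (hecke_sys (hb i) (ha i)) hQ (hl i) hlQ⟩⟩

end Pool.Agent.Results.MP_976e2b_nt.EigenclassesModuloGalois
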